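import Pool.Agent.Helper7.KT.St

set_option autoImplicit false

/-! Project KT, module KST. -/

namespace Pool.Agent.Helper65.KT

open Finset SimpleGraph Filter Topology
open EX Pool.Agent.Helper7.KT

open scoped Classical

theorem hKST (hCEN : StCEN) : StKST := by
  intro s t hs ε hε
  obtain ⟨M, hM⟩ := hCEN s t hs (ε / 2) (by positivity)
  have hlim : ∀ᶠ n : ℕ in atTop, (M : ℝ) ≤ ε / 2 * n := by
    have h1 : Tendsto (fun n : ℕ => ε / 2 * (n : ℝ)) atTop atTop :=
      tendsto_natCast_atTop_atTop.const_mul_atTop (by positivity)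
    exact h1.eventually_ge_atTop (M : ℝ)
  filter_upwards [hM, hlim] with n h1 h2
  intro Γ hΓ
  have hC : (Ct Γ (ε / 2)).card ≤ M := h1 Γ hΓ
  have hd : ∀ v : Fin n, dg Γ univ v ≤ n := fun v => by
    unfold dg nb
    calc (univ.filter (Γ.Adj v)).card ≤ (univ : Finset (Fin n)).card := card_filter_le _ _
      _ = n := by simp
  have hsplit : ((∑ v, dg Γ univ v : ℕ) : ℝ) =
      ∑ v ∈ Ct Γ (ε / 2), (dg Γ univ v : ℝ) + ∑ v ∈ univ \ Ct Γ (ε / 2), (dg Γ univ v : ℝ) := by
    push_cast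
    rw [add_comm, Finset.sum_sdiff (subset_univ _)]
  rw [hsplit]
  have hA : ∑ v ∈ Ct Γ (ε / 2), (dg Γ univ v : ℝ) ≤ (M : ℝ) * n := by
    calc ∑ v ∈ Ct Γ (ε / 2), (dg Γ univ v : ℝ) ≤ ∑ v ∈ Ct Γ (ε / 2), (n : ℝ) :=
          Finset.sum_le_sum fun v _ => by exact_mod_cast hd v
      _ = ((Ct Γ (ε / 2)).card : ℝ) * n := by rw [sum_const, nsmul_eq_mul]
      _ ≤ (M : ℝ) * n := by
          have : ((Ct Γ (ε / 2)).card : ℝ) ≤ M := by exact_mod_cast hC
          exact mul_le_mul_of_nonneg_right this (Nat.cast_nonneg n)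
  have hB : ∑ v ∈ univ \ Ct Γ (ε / 2), (dg Γ univ v : ℝ) ≤ (n : ℝ) * (ε / 2 * n) := by
    calc ∑ v ∈ univ \ Ct Γ (ε / 2), (dg Γ univ v : ℝ) ≤ ∑ v ∈ univ \ Ct Γ (ε / 2), (ε / 2 * n) := by
          refine Finset.sum_le_sum fun v hv => ?_
          rw [Finset.mem_sdiff] at hv
          have h3 := hv.2
          simp only [Ct, mem_filter, mem_univ, true_and, not_le] at h3
          exact h3.le
      _ = ((univ \ Ct Γ (ε / 2) : Finset (Fin n)).card : ℝ) * (ε / 2 * n) := by
          rw [sum_const, nsmul_eq_mul]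
      _ ≤ (n : ℝ) * (ε / 2 * n) := by
          have h4 : ((univ \ Ct Γ (ε / 2) : Finset (Fin n)).card : ℝ) ≤ n := by
            have := card_le_card (subset_univ (univ \ Ct Γ (ε / 2) : Finset (Fin n)))
            rw [card_univ, Fintype.card_fin] at this
            exact_mod_cast this
          exact mul_le_mul_of_nonneg_right h4 (by positivity)
  have hn : (0 : ℝ) ≤ n := Nat.cast_nonneg n
  nlinarith [mul_le_mul_of_nonneg_right h2 hn]

end Pool.Agent.Helper65.KT
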